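import Pool.Agent.H78.Tie.RV
import Pool.Agent.H78.Tie.Glue
import Pool.Agent.H67.NO.GH
import Pool.Agent.H67.Gen.Final

/-!
# Final assembly of S18781 from the open parts
-/

namespace Pool.Agent.H67.Flat

open Pool.Agent.H78.Tie

/-- the hypotheses on a single tie -/
def Sg (P : ∀ (A : TAp), A.Tie → Prop) : Prop :=
  ∀ (A : TAp) (T : A.Tie), A.Fl → T.Single → T.t ≠ 1 → T.x ≠ 0 → |T.x| < A.h → P A T

theorem hT_of (hL : Sg fun _ T => T.HL) (hSV : Sg fun _ T => T.HSV) (hSH : Sg fun _ T => T.HSH)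
    (hG3 : Sg fun _ T => T.HG3) (hSP : Sg fun _ T => T.HSP)
    (HD : ∀ (A : TAp) (T T' : A.Tie), A.Fl → T'.t = A.q - T.t → T.t < T'.t → T'.ep = -T.ep →
      (A.p : ℤ) ∣ T'.x - (T.x + T.ep * A.om * A.h) →
      T.t ≠ 1 → T'.t ≠ 1 → T.x ≠ 0 → T'.x ≠ 0 → |T.x| < A.h → |T'.x| < A.h → False)
    (A : TAp) (T : A.Tie) (F : A.Fl) (hx : |T.x| < A.h) (hx0 : ∀ T' : A.Tie, T'.x ≠ 0) :
    False := by
  refine TAp.tie_false_of ?_ ?_ HD A T F hx hx0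
  · intro A T F hs ht hx0 hx
    exact T.noOv_of hs ht (hL A T F hs ht hx0 hx) (hSV A T F hs ht hx0 hx)
      (T.gv F hs ht hx0 hx) (hSH A T F hs ht hx0 hx)
      (T.gh F hs ht hx0 hx (hSH A T F hs ht hx0 hx) (hG3 A T F hs ht hx0 hx))
      (hSP A T F hs ht hx0 hx)
  · intro A T F hs hn ht hx hV
    exact TAp.regionV A T F hs hn ht hx hV

end Pool.Agent.H67.Flat
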