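import Pool.Agent.H67.Fin.Asm
import Pool.Agent.H67.ST.Fin
import Pool.Agent.H81.LT.Fin
import Pool.Agent.H81.LU.Fin
import Pool.Agent.H78.SV.Fin
import Pool.Agent.H23.DT.HD

/-!
# Assembly of S18781: all parts except (HL) for tall rectangles
-/

namespace Pool.Agent.H67.Flat

open Pool.Agent.H78.Tie
open Pool.Agent.H78.Tie.TAp

/-- (HL) from its tall part -/
theorem hL_of (hTL : Sg fun A T => (A.w : ℤ) ≤ A.md → (A.w : ℤ) + |T.x| ≤ A.h →
    ∀ i m f s, T.Ov i m f s → False) : Sg fun _ T => T.HL := by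
  intro A T F hs ht hx0 hx1 hd i m f s hO
  rcases lt_or_ge A.h A.w with hw | hw
  · refine Pool.Agent.H81.LT.no_gt F T hs ht hx0 hx1 hw ?_
    rcases hd with h | h
    · have : (A.h : ℤ) < A.w := by exact_mod_cast hw
      omega
    · exact h
  · have hw' : (A.w : ℤ) ≤ A.h := by exact_mod_cast hw
    have hd' : (A.w : ℤ) ≤ A.md := by omega
    rcases lt_or_ge (A.h : ℤ) (A.w + |T.x|) with h | h
    · exact Pool.Agent.H81.LU.no_le F T hs ht hx0 hx1 hw hd' h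
    · exact hTL A T F hs ht hx0 hx1 hd' h i m f s hO

theorem hT_of2 (hTL : Sg fun A T => (A.w : ℤ) ≤ A.md → (A.w : ℤ) + |T.x| ≤ A.h →
    ∀ i m f s, T.Ov i m f s → False)
    (A : TAp) (T : A.Tie) (F : A.Fl) (hx : |T.x| < A.h) (hx0 : ∀ T' : A.Tie, T'.x ≠ 0) :
    False := by
  refine hT_of (hL_of hTL) ?_ ?_ ?_ ?_ ?_ A T F hx hx0
  · intro A T F hs ht hx0 hx1
    exact Pool.Agent.H78.SV.hSV T F hs ht hx0 hx1
  · intro A T F hs ht hx0 hx1 hd hw
    exact absurd (Pool.Agent.H67.ST.no_hw T F hs ht hx0 hx1 hd (by exact_mod_cast hw)) id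
  · intro A T F hs ht hx0 hx1 hd hw
    exact absurd (Pool.Agent.H67.ST.no_hw T F hs ht hx0 hx1 hd (by exact_mod_cast hw)) id
  · intro A T F hs ht hx0 hx1 hd hw
    exact absurd (Pool.Agent.H67.ST.no_hw T F hs ht hx0 hx1 hd (by exact_mod_cast hw)) id
  · exact Pool.Agent.H23.DT.HD

end Pool.Agent.H67.Flat
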