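import Pool.Agent.H67.Fin.Asm2
import Pool.Agent.H78.HL.Glue2
import Pool.Agent.H98.HL.NonF

/-!
# No ties: the last assembly
-/

namespace Pool.Agent.H67.Flat

open Pool.Agent.H78.Tie
open Pool.Agent.H78.Tie.TAp

/-- there is no tie with `|x| < h` in a flat pattern without ties with `x = 0` -/
theorem hT_final (A : TAp) (T : A.Tie) (F : A.Fl) (hx : |T.x| < A.h)
    (hx0 : ∀ T' : A.Tie, T'.x ≠ 0) : False := by
  refine hT_of2 ?_ A T F hx hx0
  intro A T F hs ht h0 h1 hd hw i m f s hO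
  exact Pool.Agent.H78.HL.hTL_of (fun A T n U S h o f => Pool.Agent.H98.HL.nonF h o f)
    A T F hs ht h0 h1 hd hw i m f s hO

end Pool.Agent.H67.Flat
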